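import Pool.Agent.U585.QC.Un

/-!
# MP_4f18df_nt: the Gaussian law for the Moebius function twisted by the Legendre symbol, almost all primes

For almost all primes `q ≤ Q` the sums of `μ(n) (n/q)` over the windows `|n - x| < H/2`, `x` uniform in `[X, 2X]`, divided
by `√(H/ζ(2))`, are near to the standard normal law, in distribution and in all moments, for ALL `X` between a power of
`log Q` and a small power of `Q` and ALL `H` with `X^ε ≤ H ≤ X^(1-ε)`. The same holds for the Legendre symbol on the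
squarefree integers and for every function `∏_{p ∣ n} c_p · (n/q)` on the squarefree integers with fixed signs `c_p`.

Outline. The primes are a subset of the odd integers `d`, and over those the high moments of a polynomial with nonnegative
coefficients in the symbols `(p/d)` are at most those in independent signs up to a small error, as `∑_d (m/d) ≪ m` for `m`
not a square. The moments in the independent signs have a power saving in `X` (hypercontractivity and the count of the tuples in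
windows whose product is a square), which is stronger than the loss of `log Q` for `X` at least a power of `log Q`.
-/

set_option autoImplicit false

open Finset MeasureTheory ProbabilityTheory

namespace Pool.Agent.Results.MP_4f18df_nt.AlmostAllPrimes

/-- the function `∏_{p ∣ n} c_p · (n/q)` on the squarefree integers, `0` at the others; it is `μ(n) (n/q)` for `c = -1` -/
noncomputable def twist (c : ℕ → ℝ) (q n : ℕ) : ℝ :=
  open Classical in if Squarefree n then (∏ p ∈ n.primeFactors, c p) * ((jacobiSym n q : ℤ) : ℝ) else 0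

/-- the sum over the window `|n - x| < H / 2`, normalized -/
noncomputable def Z (c : ℕ → ℝ) (q : ℕ) (H x : ℝ) : ℝ :=
  (∑ n ∈ (Finset.range (⌊x + H⌋₊ + 1)).filter (fun n : ℕ => |(n : ℝ) - x| < H / 2), twist c q n) /
    Real.sqrt (H / (Real.pi ^ 2 / 6))

open Pool.Agent.U585.QC
open Pool.Agent.U585.GC (rf)
open Pool.Agent.U585.GA (law law_mom law_cdf law_prob law_int Zf Zf_eq)

lemma rf_twist {c : ℕ → ℝ} {q n : ℕ} (hq : q.Prime) (hn : n < q) : rf (sgq c q) n = twist c q n := by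
  classical
  unfold rf twist
  by_cases h : Squarefree n
  · rw [if_pos h, if_pos h]
    have hn0 : n ≠ 0 := h.ne_zero
    have h1 : ∀ p ∈ n.primeFactors, sgq c q p = c p * ((jacobiSym p q : ℤ) : ℝ) := by
      intro p hp
      have hp' := Nat.mem_primeFactors.1 hp
      exact sgq_eq c hq hp'.1 (lt_of_le_of_lt (Nat.le_of_dvd (Nat.pos_of_ne_zero hn0) hp'.2.1) hn)
    rw [prod_congr rfl h1, prod_mul_distrib, prod_jac, Nat.prod_primeFactors_of_squarefree h]
  · rw [if_neg h, if_neg h]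

lemma Zf_Z {c : ℕ → ℝ} {q : ℕ} (hq : q.Prime) {X H x : ℝ} (hx : x ∈ Set.Icc X (2 * X)) (hH : 0 < H) (hHX : H ≤ X)
    (hqX : 3 * ⌈X⌉₊ < q) : Zf (sgq c q) X H x = Z c q H x := by
  rw [Zf_eq _ hx hH hHX]
  unfold Z
  congr 1
  refine sum_congr rfl fun n hn => rf_twist hq ?_
  have h1 := (abs_lt.1 (mem_filter.1 hn).2).2
  have h2 := hx.2
  have h3 : (n : ℝ) < ((3 * ⌈X⌉₊ : ℕ) : ℝ) := by
    push_cast
    have := Nat.le_ceil X
    linarith
  have h4 : n < 3 * ⌈X⌉₊ := by exact_mod_cast h3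
  omega

open Classical in
lemma main_good {c : ℕ → ℝ} (hc : ∀ p, c p = 1 ∨ c p = -1) {ε : ℝ} (hε : 0 < ε) (B R : ℕ) :
    ∃ A : ℕ, 1 ≤ A ∧ ∀ η : ℝ, 0 < η → ∃ Q₀ : ℕ, ∀ Q : ℕ, Q₀ ≤ Q →
      (((range (Q + 1)).filter (fun q => q.Prime ∧ ¬ ∀ X H : ℝ, Real.log Q ^ A ≤ X → X ≤ (Q : ℝ) ^ (1 / (A : ℝ)) →
        X ^ ε ≤ H → H ≤ X ^ (1 - ε) → 0 < X ∧ 0 < H ∧ H ≤ X ∧ 3 * ⌈X⌉₊ < q ∧
          ∀ r ≤ R, |∫ y, y ^ r ∂(law (sgq c q) X H) - ∫ y, y ^ r ∂(gaussianReal 0 1)| ≤ η)).card : ℝ) ≤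
        Q / Real.log Q ^ B := by
  set ε' := min ε (1 / 2) with hε'
  have hε'0 : 0 < ε' := lt_min hε (by norm_num)
  have hε'1 : ε' ≤ 1 / 2 := min_le_right _ _
  have hε'2 : ε' ≤ ε := min_le_left _ _
  obtain ⟨A, hA, Q₁, h1⟩ := union_bound hc (by linarith : 0 < ε' / 2) (by linarith) B R
  refine ⟨A, hA, fun η hη => ?_⟩
  have hm : ∀ r : ℕ, ∃ X₀ : ℝ, 0 ≤ X₀ ∧ (1 ≤ r → ∀ (X H : ℝ) (q : ℕ), X₀ ≤ X → X ^ ε' ≤ H → H ≤ X ^ (1 - ε') →
      ¬ badq c r (ε' / 2) ⌈X⌉₊ q →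
      |∫ y, y ^ r ∂(law (sgq c q) X H) - ∫ y, y ^ r ∂(gaussianReal 0 1)| ≤ η) := by
    intro r
    by_cases hr : 1 ≤ r
    · obtain ⟨X₀, a1, a2⟩ := mom_near hc hε'0 hε'1 r hr η hη
      exact ⟨X₀, by linarith, fun _ => a2⟩
    · exact ⟨0, le_rfl, fun h => absurd h hr⟩
  choose X₀ hX₀ hmom using hm
  obtain ⟨Q₂, h2⟩ := sizes 0 (∑ r ∈ Icc 1 R, X₀ r) 0
  refine ⟨Q₁ + Q₂, fun Q hQ => le_trans ?_ (h1 Q (by omega))⟩
  obtain ⟨s1, s2, -⟩ := h2 Q (by omega)
  refine Nat.cast_le.2 (card_le_card fun q hq => ?_)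
  obtain ⟨hq1, hq2, hq3⟩ := mem_filter.1 hq
  refine mem_filter.2 ⟨hq1, hq2, fun hgood => hq3 ?_⟩
  intro X H hXl hXu hHl hHu
  have hLA : Real.log Q ≤ Real.log Q ^ A := le_self_pow₀ s1 (by omega)
  have hX1 : 1 ≤ X := by linarith
  have hX0 : 0 < X := by linarith
  have hHl' : X ^ ε' ≤ H := (Real.rpow_le_rpow_of_exponent_le hX1 hε'2).trans hHl
  have hHu' : H ≤ X ^ (1 - ε') := hHu.trans (Real.rpow_le_rpow_of_exponent_le hX1 (by linarith))
  have hH0 : 0 < H := lt_of_lt_of_le (Real.rpow_pos_of_pos hX0 _) hHl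
  have hHX : H ≤ X := hHu.trans (by
    calc X ^ (1 - ε) ≤ X ^ (1 : ℝ) := Real.rpow_le_rpow_of_exponent_le hX1 (by linarith)
      _ = X := Real.rpow_one X)
  have hn1 : Real.log Q ^ A ≤ ⌈X⌉₊ := hXl.trans (Nat.le_ceil X)
  have hn2 : ((⌈X⌉₊ : ℕ) : ℝ) ≤ (Q : ℝ) ^ (1 / (A : ℝ)) + 1 := by
    have := Nat.ceil_lt_add_one hX0.le
    linarith
  obtain ⟨g1, g2, g3⟩ := hgood ⌈X⌉₊ hn1 hn2
  refine ⟨hX0, hH0, hHX, g1, fun r hr => ?_⟩
  rcases Nat.eq_zero_or_pos r with rfl | hr1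
  · have := law_prob (sgq c q) hX0 H
    simp only [pow_zero, integral_const, probReal_univ, smul_eq_mul, mul_one, sub_self, abs_zero]
    exact hη.le
  · refine hmom r hr1 X H q ?_ hHl' hHu' (g3 r hr1 hr)
    have h3 : X₀ r ≤ ∑ r ∈ Icc 1 R, X₀ r :=
      single_le_sum (f := X₀) (fun i _ => hX₀ i) (mem_Icc.2 ⟨hr1, hr⟩)
    linarith

open Classical in
/-- **Almost all primes.** Let `c_p` be signs, `ε > 0` and `B ≥ 0`. (The first statement: for `c = -1` the function is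
`μ(n) (n/q)`.)

Moments: for all `R` there is `A ≥ 1` such that for all `η > 0` and all large `Q`, for all but at most `Q / (log Q)^B` of
the primes `q ≤ Q`: for ALL `X` with `(log Q)^A ≤ X ≤ Q^(1/A)` and ALL `H` with `X^ε ≤ H ≤ X^(1-ε)` the `r`-th moment of the
normalized sums over the windows, `x` uniform in `[X, 2X]`, differs by at most `η` from the `r`-th moment of the standard normal
law, for all `r ≤ R`.

Law: for all real `t` and `η > 0` there is `A ≥ 1` such that for all large `Q`, for all but at most `Q / (log Q)^B` of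
the primes `q ≤ Q`: for ALL such `X`, `H` the proportion of the `x` in `[X, 2X]` with `Z ≤ t` differs by at most `η` from
the value at `t` of the standard normal distribution function. -/
theorem result :
    (∀ q n : ℕ, twist (fun _ => -1) q n = ((ArithmeticFunction.moebius n : ℤ) : ℝ) * ((jacobiSym n q : ℤ) : ℝ)) ∧
    ∀ (c : ℕ → ℝ), (∀ p, c p = 1 ∨ c p = -1) → ∀ (ε : ℝ), 0 < ε → ∀ B : ℕ,
      (∀ R : ℕ, ∃ A : ℕ, 1 ≤ A ∧ ∀ η : ℝ, 0 < η → ∃ Q₀ : ℕ, ∀ Q : ℕ, Q₀ ≤ Q →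
        (((range (Q + 1)).filter (fun q => q.Prime ∧ ¬ ∀ X H : ℝ, Real.log Q ^ A ≤ X → X ≤ (Q : ℝ) ^ (1 / (A : ℝ)) →
          X ^ ε ≤ H → H ≤ X ^ (1 - ε) → ∀ r ≤ R,
            |(1 / X) * (∫ x in X..2 * X, Z c q H x ^ r) - ∫ y, y ^ r ∂(gaussianReal 0 1)| ≤ η)).card : ℝ) ≤
          Q / Real.log Q ^ B) ∧
      (∀ t η : ℝ, 0 < η → ∃ A : ℕ, 1 ≤ A ∧ ∃ Q₀ : ℕ, ∀ Q : ℕ, Q₀ ≤ Q →
        (((range (Q + 1)).filter (fun q => q.Prime ∧ ¬ ∀ X H : ℝ, Real.log Q ^ A ≤ X → X ≤ (Q : ℝ) ^ (1 / (A : ℝ)) →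
          X ^ ε ≤ H → H ≤ X ^ (1 - ε) →
            |(volume {x : ℝ | x ∈ Set.Icc X (2 * X) ∧ Z c q H x ≤ t}).toReal / X -
              cdf (gaussianReal 0 1) t| ≤ η)).card : ℝ) ≤ Q / Real.log Q ^ B) := by
  refine ⟨fun q n => ?_, fun c hc ε hε B => ⟨fun R => ?_, fun t η hη => ?_⟩⟩
  · unfold twist
    by_cases h : Squarefree n
    · have h1 : n.primeFactors.card = n.primeFactorsList.length := by
        have := List.card_toFinset n.primeFactorsList
        rw [(Squarefree.nodup_primeFactorsList h).dedup] at this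
        exact this
      rw [if_pos h, ArithmeticFunction.moebius_apply_of_squarefree h, Finset.prod_const,
        ArithmeticFunction.cardFactors_apply, h1]
      push_cast
      rfl
    · rw [if_neg h, ArithmeticFunction.moebius_eq_zero_of_not_squarefree h]
      simp
  · obtain ⟨A, hA, h1⟩ := main_good hc hε B R
    refine ⟨A, hA, fun η hη => ?_⟩
    obtain ⟨Q₀, h2⟩ := h1 η hη
    refine ⟨Q₀, fun Q hQ => le_trans ?_ (h2 Q hQ)⟩
    refine Nat.cast_le.2 (card_le_card fun q hq => ?_)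
    obtain ⟨hq1, hq2, hq3⟩ := mem_filter.1 hq
    refine mem_filter.2 ⟨hq1, hq2, fun hgood => hq3 ?_⟩
    intro X H hXl hXu hHl hHu r hr
    obtain ⟨g1, g2, g3, g4, g5⟩ := hgood X H hXl hXu hHl hHu
    have h3 := g5 r hr
    rw [law_mom _ g1] at h3
    have h4 : ∫ x in X..2 * X, Zf (sgq c q) X H x ^ r = ∫ x in X..2 * X, Z c q H x ^ r := by
      refine intervalIntegral.integral_congr fun x hx => ?_
      rw [Set.uIcc_of_le (by linarith)] at hx
      beta_reduce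
      rw [Zf_Z hq2 hx g2 g3 g4]
    rwa [h4] at h3
  · obtain ⟨R, η', hη', hR⟩ := close_cdf t η hη
    obtain ⟨A, hA, h1⟩ := main_good hc hε B R
    obtain ⟨Q₀, h2⟩ := h1 η' hη'
    refine ⟨A, hA, Q₀, fun Q hQ => le_trans ?_ (h2 Q hQ)⟩
    refine Nat.cast_le.2 (card_le_card fun q hq => ?_)
    obtain ⟨hq1, hq2, hq3⟩ := mem_filter.1 hq
    refine mem_filter.2 ⟨hq1, hq2, fun hgood => hq3 ?_⟩
    intro X H hXl hXu hHl hHu
    obtain ⟨g1, g2, g3, g4, g5⟩ := hgood X H hXl hXu hHl hHu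
    have h3 := hR ⟨law (sgq c q) X H, law_prob (sgq c q) g1 H⟩ (fun j => law_int (sgq c q) g1 H j) g5
    change |(law (sgq c q) X H (Set.Iic t)).toReal - cdf (gaussianReal 0 1) t| ≤ η at h3
    rw [law_cdf _ g1] at h3
    have h4 : {x : ℝ | x ∈ Set.Icc X (2 * X) ∧ Zf (sgq c q) X H x ≤ t} =
        {x : ℝ | x ∈ Set.Icc X (2 * X) ∧ Z c q H x ≤ t} := by
      ext x
      simp only [Set.mem_ofPred_eq]
      refine and_congr_right fun hx => ?_
      rw [Zf_Z hq2 hx g2 g3 g4]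
    rwa [h4] at h3

end Pool.Agent.Results.MP_4f18df_nt.AlmostAllPrimes
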