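import Pool.Agent.U585.GA.Mom

/-!
# MP_4f18df_nt: the Gaussian law holds almost surely in the random model, for all windows

In the random model of the Moebius function (Wintner) the values `μ(p) = -1` are replaced by
independent random signs `f p` (each sign with probability `1/2`) and `μ` by the random function
supported on the squarefree integers with the value `∏_{p ∣ n} f p` at `n`. The theorem: almost surely
the sums of this function over the windows `|n - x| < H(X)/2`, `x` uniform in `[X, 2X]`, divided by
`√(H(X)/ζ(2))`, converge in distribution and with all moments to the standard normal law, *for all*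
functions `H(X)` with `X^ε < H(X) < X^(1-ε)` at once (the exceptional event of probability zero does
not depend on `H`).

Outline. The `r`-th moment of a fixed sample is a polynomial in the signs. Its constant part, with
equal integers in pairs, is the moment of a model with independent signs at the squarefree integers.
The sum of the squares of the other coefficients is bounded by the number of pairs of `r`-tuples in
windows with `n_1 ⋯ n_r n'_1 ⋯ n'_r` a square in which some value occurs an odd number of times in
each tuple; these pairs are counted by a graph argument (a cycle of common factors fixes the tuple up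
to few choices). Hypercontractivity, Borel-Cantelli and interpolation give the comparison of all
moments, for all windows, almost surely. The truncated Taylor series compares the characteristic
functions, the periodic sieve shows that almost all windows have `(6/π² + o(1)) H` squarefree
integers, and Lévy's theorem finishes the proof.
-/

set_option autoImplicit false

namespace Pool.Agent.Results.MP_4f18df_nt.RandomModelGaussian

open MeasureTheory Filter Topology ProbabilityTheory

/-- the function on the integers supported on the squarefree ones, with the value
`∏_{p ∣ n} s p` at `n`; for `s = -1` it is the Moebius function -/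
noncomputable def mult (s : ℕ → ℝ) (n : ℕ) : ℝ :=
  open Classical in if Squarefree n then ∏ p ∈ n.primeFactors, s p else 0

/-- `M(x; H)`: the sum of `mult s` over the integers `n ≥ 1` with `|n - x| < H / 2` -/
noncomputable def M (s : ℕ → ℝ) (x H : ℝ) : ℝ :=
  ∑ n ∈ (Finset.range (⌊x + H⌋₊ + 1)).filter (fun n : ℕ => |(n : ℝ) - x| < H / 2), mult s n

/-- Almost surely the normalized sums in windows of the random multiplicative function on the
squarefree integers with independent symmetric signs at the primes are asymptotically normal, with
convergence of all moments, for all lengths `H(X)` as in the problem. The first statement says that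
`mult` is the Moebius function for `s = -1`. -/
theorem result :
    (∀ n : ℕ, mult (fun _ => -1) n = ((ArithmeticFunction.moebius n : ℤ) : ℝ)) ∧
    ∀ (Ω : Type) [MeasurableSpace Ω] (P : Measure Ω) [IsProbabilityMeasure P]
      (f : ℕ → Ω → ℝ), (∀ p, Measurable (f p)) → iIndepFun f P →
      (∀ p ω, f p ω = 1 ∨ f p ω = -1) → (∀ p, ∫ ω, f p ω ∂P = 0) →
      ∀ᵐ ω ∂P, ∀ ε : ℝ, 0 < ε → ∀ H : ℝ → ℝ,
        (∀ᶠ X in atTop, X ^ ε < H X ∧ H X < X ^ (1 - ε)) →
          (∀ t : ℝ, Tendsto (fun X : ℝ => (volume {x : ℝ | x ∈ Set.Icc X (2 * X) ∧
            M (fun p => f p ω) x (H X) / Real.sqrt (H X / (Real.pi ^ 2 / 6)) ≤ t}).toReal / X)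
            atTop (𝓝 (cdf (gaussianReal 0 1) t))) ∧
          ∀ r : ℕ, Tendsto (fun X : ℝ => (1 / X) * ∫ x in X..2 * X,
            (M (fun p => f p ω) x (H X) / Real.sqrt (H X / (Real.pi ^ 2 / 6))) ^ r)
            atTop (𝓝 (∫ y, y ^ r ∂(gaussianReal 0 1))) := by
  refine ⟨fun n => ?_, fun Ω _ P _ f hmeas hind hval hmean => ?_⟩
  · unfold mult
    by_cases h : Squarefree n
    · have h1 : n.primeFactors.card = n.primeFactorsList.length := by
        have := List.card_toFinset n.primeFactorsList
        rw [(Squarefree.nodup_primeFactorsList h).dedup] at this
        exact this
      rw [if_pos h, ArithmeticFunction.moebius_apply_of_squarefree h, Finset.prod_const,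
        ArithmeticFunction.cardFactors_apply, h1]
      push_cast
      rfl
    · rw [if_neg h, ArithmeticFunction.moebius_eq_zero_of_not_squarefree h]
      simp
  · exact Pool.Agent.U585.GA.main2 (⟨hmeas, hind, hval, hmean⟩ : Pool.Agent.U585.GC.Signs P f)

end Pool.Agent.Results.MP_4f18df_nt.RandomModelGaussian
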