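import Pool.Agent.R303.SW.Mo

/-!
# The tails of the Möbius sums in short intervals and the Riemann hypothesis

Let `Z = M(x; H) / √(H / ζ(2))` with `x` uniform in `[X, 2X]`; the problem asks whether `Z` is asymptotically normal.

1. If `ζ` has a zero with real part `> θ ≥ 1/2`, then for EVERY large `X` and EVERY `H ≤ X^(1-ε)`:
`P(|Z| ≥ √H X^(θ-1)) ≥ H X^(-1-ε)` and `E|Z| ≥ √H X^(θ-1)`.  So, if the Riemann hypothesis is false, the tails of `Z`
are fat and its moments are large at every `X`, for all `H` near `X`.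

2. There is a dichotomy: the Riemann hypothesis is true if and only if for all `δ > 0` there is `ε > 0` such that
`P(|Z| ≥ X^δ) ≤ X^(-2δ)` for ONE sequence of `X → ∞` with one `H` between `X^(1-δ)` and `X^(1-ε)` each; and then
`P(|Z| ≥ X^δ) = 0` for all large `X` and all `H` between `X^(1-δ)` and `X`.  It is also equivalent to `E|Z| ≤ X^δ`
for one such sequence.
-/

set_option autoImplicit false

open MeasureTheory Filter Topology

namespace Pool.Agent.Results.MP_4f18df_nt.TailsAndRH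

/-- `M(x; H)`, the sum of `μ(n)` over the `n ≥ 1` with `|n - x| < H / 2` (the term `n = 0` is `0`) -/
noncomputable def M (x H : ℝ) : ℝ :=
  ∑ n ∈ (Finset.range (⌈x + H⌉₊ + 1)).filter (fun n : ℕ => |(n : ℝ) - x| < H / 2),
    ((ArithmeticFunction.moebius n : ℤ) : ℝ)

/-- `Z = M(x;H) / √(H / ζ(2))`, `ζ(2) = π² / 6` -/
noncomputable def Z (x H : ℝ) : ℝ := M x H / Real.sqrt (H / (Real.pi ^ 2 / 6))

/-- the probability of `|Z| ≥ t` for `x` uniform in `[X, 2X]` -/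
noncomputable def P (X H t : ℝ) : ℝ := (1 / X) * (volume {x : ℝ | x ∈ Set.Icc X (2 * X) ∧ t ≤ |Z x H|}).toReal

/-- the first absolute moment of `Z` for `x` uniform in `[X, 2X]` -/
noncomputable def E (X H : ℝ) : ℝ := (1 / X) * ∫ x in X..2 * X, |Z x H|

open Pool.Agent.R303.SW in
lemma M_eq {x H : ℝ} (hH : 0 < H) (hx : H / 2 ≤ x) (hn : ∀ n : ℕ, x + H / 2 ≠ n) : M x H = DF muR H x :=
  open_window muR (by simp [muR]) hH hx hn

/-- the normalisation -/
noncomputable def sg (H : ℝ) : ℝ := Real.sqrt (H / (Real.pi ^ 2 / 6))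

lemma pi_sq : (1 : ℝ) ≤ Real.pi ^ 2 / 6 ∧ Real.pi ^ 2 / 6 ≤ 4 := by
  have h1 := Real.pi_gt_three
  have h2 := Real.pi_lt_four
  constructor <;> nlinarith

lemma sg_pos {H : ℝ} (hH : 0 < H) : 0 < sg H := by
  have := pi_sq.1
  exact Real.sqrt_pos.2 (by positivity)

lemma sg_le {H : ℝ} (hH : 0 < H) : sg H ≤ Real.sqrt H := by
  apply Real.sqrt_le_sqrt
  rw [div_le_iff₀ (by linarith [pi_sq.1])]
  nlinarith [pi_sq.1]

lemma sg_ge {H : ℝ} (hH : 0 < H) : Real.sqrt H / 2 ≤ sg H := by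
  have h1 : Real.sqrt H / 2 = Real.sqrt (H / 4) := by
    rw [Real.sqrt_div hH.le, show (4:ℝ) = 2 ^ 2 by norm_num, Real.sqrt_sq (by norm_num)]
  rw [h1]
  apply Real.sqrt_le_sqrt
  have := pi_sq.1
  have := pi_sq.2
  gcongr

lemma abs_Z {x H : ℝ} (hH : 0 < H) : |Z x H| = |M x H| / sg H := by
  unfold Z
  rw [abs_div]
  congr 1
  exact abs_of_pos (sg_pos hH)

open Pool.Agent.R303.SW in
lemma vol_eq {X H : ℝ} (t : ℝ) (hH : 0 < H) (hX : H / 2 ≤ X) :
    volume {x : ℝ | x ∈ Set.Icc X (2 * X) ∧ t ≤ |Z x H|} =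
      volume {x : ℝ | x ∈ Set.Icc X (2 * X) ∧ t * sg H ≤ |DF muR H x|} := by
  apply measure_congr
  filter_upwards [ae_not_nat H] with x hx
  apply propext
  show (x ∈ Set.Icc X (2 * X) ∧ t ≤ |Z x H|) ↔ (x ∈ Set.Icc X (2 * X) ∧ t * sg H ≤ |DF muR H x|)
  refine and_congr_right fun h => ?_
  rw [abs_Z hH, le_div_iff₀ (sg_pos hH), M_eq hH (by linarith [h.1]) hx]

open Pool.Agent.R303.SW in
lemma E_eq {X H : ℝ} (hH : 0 < H) (hX : H / 2 ≤ X) :
    E X H = (1 / X) * ((∫ x in X..2 * X, |DF muR H x|) / sg H) := by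
  unfold E
  have h1 : ∫ x in X..2 * X, |Z x H| = ∫ x in X..2 * X, |DF muR H x| / sg H := by
    apply intervalIntegral.integral_congr_ae
    filter_upwards [ae_not_nat H] with x hx hxI
    rw [Set.uIoc_of_le (by linarith)] at hxI
    rw [abs_Z hH, M_eq hH (by linarith [hxI.1]) hx]
  rw [h1, intervalIntegral.integral_div]

open Pool.Agent.R303.SW in
lemma lowP (θ ε : ℝ) (hθ : 1 / 2 ≤ θ) (hε : 0 < ε) (hε1 : ε < 1)
    (hz : ∃ s : ℂ, riemannZeta s = 0 ∧ θ < s.re) :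
    ∀ᶠ X : ℝ in atTop, ∀ H : ℝ, 0 < H → H ≤ X ^ (1 - ε) → ∀ t : ℝ, 0 ≤ t → t ≤ Real.sqrt H * X ^ (θ - 1) →
      H * X ^ (-1 - ε) ≤ P X H t := by
  have h1 := mu_large θ 0 1 ε hθ le_rfl (by nlinarith [sq_nonneg (2 * θ - 1)]) one_pos hε hε1 hz
  filter_upwards [h1, eventually_ge_atTop 1] with X g1 g2 H hH hH1 t ht0 ht
  have hX : 0 < X := by linarith
  have hHX : H ≤ X := by
    refine hH1.trans ?_
    conv_rhs => rw [← Real.rpow_one X]
    exact Real.rpow_le_rpow_of_exponent_le g2 (by linarith)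
  have h2 := g1 H hH hH1
  rw [Real.rpow_zero, div_one, one_mul, ← two_mul] at h2
  unfold P
  rw [vol_eq t hH (by linarith)]
  have h3 : t * sg H ≤ H * X ^ (θ - 1) := by
    calc t * sg H ≤ (Real.sqrt H * X ^ (θ - 1)) * Real.sqrt H := by
          have := sg_le hH
          have := (sg_pos hH).le
          gcongr
      _ = (Real.sqrt H * Real.sqrt H) * X ^ (θ - 1) := by ring
      _ = H * X ^ (θ - 1) := by rw [Real.mul_self_sqrt hH.le]
  have h4 : (volume {x : ℝ | x ∈ Set.Icc X (2 * X) ∧ H * X ^ (θ - 1) ≤ |DF muR H x|}).toReal ≤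
      (volume {x : ℝ | x ∈ Set.Icc X (2 * X) ∧ t * sg H ≤ |DF muR H x|}).toReal := by
    refine ENNReal.toReal_mono ?_ (measure_mono fun x hx => ⟨hx.1, h3.trans hx.2⟩)
    exact ((measure_mono (fun x hx => hx.1)).trans_lt
      (measure_Icc_lt_top (a := X) (b := 2 * X))).ne
  have h5 : X ^ (-1 - ε) = 1 / X * X ^ (-ε) := by
    rw [show -1 - ε = -1 + -ε by ring, Real.rpow_add hX, Real.rpow_neg_one, one_div]
  rw [h5]
  calc H * (1 / X * X ^ (-ε)) = 1 / X * (H * X ^ (-ε)) := by ring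
    _ ≤ _ := mul_le_mul_of_nonneg_left (h2.trans h4) (by positivity)

open Pool.Agent.R303.SW in
lemma lowE (θ ε : ℝ) (hθ : 1 / 2 ≤ θ) (hε : 0 < ε) (hε1 : ε < 1)
    (hz : ∃ s : ℂ, riemannZeta s = 0 ∧ θ < s.re) :
    ∀ᶠ X : ℝ in atTop, ∀ H : ℝ, 0 < H → H ≤ X ^ (1 - ε) → Real.sqrt H * X ^ (θ - 1) ≤ E X H := by
  have h1 := mu_DF θ 0 1 ε hθ le_rfl (by nlinarith [sq_nonneg (2 * θ - 1)]) one_pos hε hε1 hz
  filter_upwards [h1, eventually_ge_atTop 1] with X g1 g2 H hH hH1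
  have hX : 0 < X := by linarith
  have hHX : H ≤ X := by
    refine hH1.trans ?_
    conv_rhs => rw [← Real.rpow_one X]
    exact Real.rpow_le_rpow_of_exponent_le g2 (by linarith)
  have h2 := g1 H hH hH1
  rw [Real.rpow_zero, div_one, one_mul, ← two_mul] at h2
  rw [E_eq hH (by linarith)]
  have h3 := sg_pos hH
  have hs := Real.sqrt_pos.2 hH
  have h5 : X ^ (θ - 1) = 1 / X * X ^ θ := by
    rw [show θ - 1 = -1 + θ by ring, Real.rpow_add hX, Real.rpow_neg_one, one_div]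
  have h6 : Real.sqrt H * X ^ θ ≤ (∫ x in X..2 * X, |DF muR H x|) / sg H := by
    rw [le_div_iff₀ h3]
    refine le_trans ?_ h2
    calc Real.sqrt H * X ^ θ * sg H ≤ Real.sqrt H * X ^ θ * Real.sqrt H := by
          have := sg_le hH
          gcongr
      _ = (Real.sqrt H * Real.sqrt H) * X ^ θ := by ring
      _ = H * X ^ θ := by rw [Real.mul_self_sqrt hH.le]
  rw [h5]
  calc Real.sqrt H * (1 / X * X ^ θ) = 1 / X * (Real.sqrt H * X ^ θ) := by ring
    _ ≤ _ := mul_le_mul_of_nonneg_left h6 (by positivity)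

open Pool.Agent.R303.SW in
/-- the bound under the Riemann hypothesis -/
lemma up (δ : ℝ) (hδ : 0 < δ) (hz : ∀ s : ℂ, 1 / 2 < s.re → riemannZeta s ≠ 0) :
    ∀ᶠ X : ℝ in atTop, ∀ H : ℝ, 0 < H → X ^ (1 - δ) ≤ H → H ≤ X →
      ∀ x ∈ Set.Icc X (2 * X), |DF muR H x| < X ^ δ * sg H := by
  obtain ⟨θ', hθ'⟩ : ∃ θ', θ' = 1 / 2 + δ / 4 := ⟨_, rfl⟩
  obtain ⟨C, hC'⟩ := H353.mertens_of_free (1 / 2) le_rfl hz θ' (by linarith)
  have hC0 : 0 ≤ C := by
    have := (abs_nonneg _).trans (hC' 1 le_rfl)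
    simpa using this
  have hθ0 : 0 ≤ θ' := by linarith
  have t1 : ∀ᶠ X : ℝ in atTop, 4 * (C * 3 ^ θ') < X ^ (δ / 4) :=
    (tendsto_rpow_atTop (by linarith)).eventually_gt_atTop _
  filter_upwards [t1, eventually_ge_atTop 1] with X g1 g2 H hH0 hH1 hHX x hx
  have hX : 0 < X := by linarith
  have hS : ∀ y : ℝ, y ≤ 3 * X → |Pool.Agent.W190.SF muR y| ≤ C * 3 ^ θ' * X ^ θ' := by
    intro y hy
    by_cases h1 : 1 ≤ y
    · refine (hC' y h1).trans ?_
      rw [mul_assoc, ← Real.mul_rpow (by norm_num) hX.le]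
      exact mul_le_mul_of_nonneg_left (Real.rpow_le_rpow (by linarith) hy hθ0) hC0
    · have h2 : ⌊y⌋₊ = 0 := Nat.floor_eq_zero.2 (not_le.1 h1)
      unfold Pool.Agent.W190.SF
      rw [h2]
      simp only [Finset.Icc_eq_empty (show ¬ (1:ℕ) ≤ 0 by norm_num), Finset.sum_empty, abs_zero]
      positivity
  have e1 := hS (x + H / 2) (by linarith [hx.2])
  have e2 := hS (x - H / 2) (by linarith [hx.2])
  have e3 : |DF muR H x| ≤ 2 * (C * 3 ^ θ' * X ^ θ') := by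
    unfold DF
    refine (abs_sub _ _).trans ?_
    linarith
  have e4 : X ^ ((1 - δ) / 2) ≤ Real.sqrt H := by
    rw [Real.sqrt_eq_rpow]
    calc X ^ ((1 - δ) / 2) = (X ^ (1 - δ)) ^ (1 / 2 : ℝ) := by
          rw [← Real.rpow_mul hX.le]
          congr 1
          ring
      _ ≤ H ^ (1 / 2 : ℝ) := Real.rpow_le_rpow (by positivity) hH1 (by norm_num)
  have e5 : X ^ ((1 - δ) / 2) / 2 ≤ sg H := le_trans (by linarith) (sg_ge hH0)
  have e6 : X ^ δ * (X ^ ((1 - δ) / 2) / 2) = X ^ θ' * X ^ (δ / 4) / 2 := by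
    rw [← mul_div_assoc, ← Real.rpow_add hX, ← Real.rpow_add hX]
    congr 2
    rw [hθ']
    ring
  have e7 : 0 < X ^ θ' := Real.rpow_pos_of_pos hX _
  calc |DF muR H x| ≤ 2 * (C * 3 ^ θ' * X ^ θ') := e3
    _ = X ^ θ' * (4 * (C * 3 ^ θ')) / 2 := by ring
    _ < X ^ θ' * X ^ (δ / 4) / 2 := by
        have := mul_lt_mul_of_pos_left g1 e7
        linarith
    _ = X ^ δ * (X ^ ((1 - δ) / 2) / 2) := e6.symm
    _ ≤ _ := mul_le_mul_of_nonneg_left e5 (by positivity)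

open Pool.Agent.R303.SW in
lemma upP (δ : ℝ) (hδ : 0 < δ) (hz : ∀ s : ℂ, 1 / 2 < s.re → riemannZeta s ≠ 0) :
    ∀ᶠ X : ℝ in atTop, ∀ H : ℝ, 0 < H → X ^ (1 - δ) ≤ H → H ≤ X → P X H (X ^ δ) = 0 := by
  filter_upwards [up δ hδ hz, eventually_ge_atTop 1] with X h g H hH0 hH1 hHX
  unfold P
  rw [vol_eq _ hH0 (by linarith)]
  have h1 : {x : ℝ | x ∈ Set.Icc X (2 * X) ∧ X ^ δ * sg H ≤ |DF muR H x|} = ∅ := by
    ext x
    simp only [Set.mem_ofPred_eq, Set.mem_empty_iff_false, iff_false, not_and, not_le]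
    exact fun hx => h H hH0 hH1 hHX x hx
  rw [h1]
  simp

open Pool.Agent.R303.SW in
lemma upE (δ : ℝ) (hδ : 0 < δ) (hz : ∀ s : ℂ, 1 / 2 < s.re → riemannZeta s ≠ 0) :
    ∀ᶠ X : ℝ in atTop, ∀ H : ℝ, 0 < H → X ^ (1 - δ) ≤ H → H ≤ X → E X H ≤ X ^ δ := by
  filter_upwards [up δ hδ hz, eventually_ge_atTop 1] with X h g H hH0 hH1 hHX
  have hX : 0 < X := by linarith
  rw [E_eq hH0 (by linarith)]
  have h3 := sg_pos hH0
  have hI : IntervalIntegrable (fun x => |DF muR H x|) volume X (2 * X) := by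
    have := DF_II muR H 0 X (2 * X)
    simp only [sub_zero] at this
    exact this.abs
  have h4 := intervalIntegral.integral_mono_on (by linarith : X ≤ 2 * X) hI
    (intervalIntegrable_const (c := X ^ δ * sg H)) fun x hx => (h H hH0 hH1 hHX x hx).le
  rw [intervalIntegral.integral_const, smul_eq_mul, show 2 * X - X = X by ring] at h4
  calc (1 / X) * ((∫ x in X..2 * X, |DF muR H x|) / sg H) ≤ (1 / X) * ((X * (X ^ δ * sg H)) / sg H) := by
        gcongr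
    _ = X ^ δ := by field_simp

/-- **The tails of the Möbius sums in short intervals and the Riemann hypothesis.** -/
theorem result :
    -- 1. a zero to the right of the critical line makes the tails fat and the first moment large at every scale
    (∀ θ ε : ℝ, 1 / 2 ≤ θ → 0 < ε → ε < 1 → (∃ s : ℂ, riemannZeta s = 0 ∧ θ < s.re) →
      ∀ᶠ X : ℝ in atTop, ∀ H : ℝ, 0 < H → H ≤ X ^ (1 - ε) →
        H * X ^ (-1 - ε) ≤ P X H (Real.sqrt H * X ^ (θ - 1)) ∧ Real.sqrt H * X ^ (θ - 1) ≤ E X H) ∧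
    -- 2. the dichotomy
    List.TFAE [RiemannHypothesis,
      ∀ δ : ℝ, 0 < δ → ∀ᶠ X : ℝ in atTop, ∀ H : ℝ, X ^ (1 - δ) ≤ H → H ≤ X → P X H (X ^ δ) = 0,
      ∀ δ : ℝ, 0 < δ → ∃ ε : ℝ, 0 < ε ∧ ∃ᶠ X : ℝ in atTop, ∃ H : ℝ,
        X ^ (1 - δ) ≤ H ∧ H ≤ X ^ (1 - ε) ∧ P X H (X ^ δ) ≤ X ^ (-(2 * δ)),
      ∀ δ : ℝ, 0 < δ → ∃ ε : ℝ, 0 < ε ∧ ∃ᶠ X : ℝ in atTop, ∃ H : ℝ,
        X ^ (1 - δ) ≤ H ∧ H ≤ X ^ (1 - ε) ∧ E X H ≤ X ^ δ] := by
  refine ⟨fun θ ε h1 h2 h3 h4 => ?_, ?_⟩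
  · filter_upwards [lowP θ ε h1 h2 h3 h4, lowE θ ε h1 h2 h3 h4, eventually_ge_atTop 1] with X a b g H hH hH1
    have hX : 0 < X := by linarith
    exact ⟨a H hH hH1 _ (by positivity) le_rfl, b H hH hH1⟩
  rw [Pool.Agent.W190.rh_free]
  have key : ∀ s : ℂ, 1 / 2 < s.re → riemannZeta s = 0 → ∃ δ θ : ℝ, 0 < δ ∧ 1 / 2 < θ ∧ δ ≤ 1 / 2 ∧
      (∃ s : ℂ, riemannZeta s = 0 ∧ θ < s.re) ∧ 2 * δ = θ - 1 / 2 := by
    intro s hs h0
    have h1 := (Pool.Agent.W190.zero_FF h0).2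
    refine ⟨(s.re - 1 / 2) / 4, (s.re + 1 / 2) / 2, by linarith, by linarith, by linarith, ⟨s, h0, by linarith⟩,
      by ring⟩
  have hsq : ∀ X H δ θ : ℝ, 1 < X → X ^ (1 - δ) ≤ H → 0 < δ → 2 * δ = θ - 1 / 2 →
      X ^ δ < Real.sqrt H * X ^ (θ - 1) := by
    intro X H δ θ hX hH hδ hθ
    have hX0 : 0 < X := by linarith
    have e4 : X ^ ((1 - δ) / 2) ≤ Real.sqrt H := by
      rw [Real.sqrt_eq_rpow]
      calc X ^ ((1 - δ) / 2) = (X ^ (1 - δ)) ^ (1 / 2 : ℝ) := by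
            rw [← Real.rpow_mul hX0.le]
            congr 1
            ring
        _ ≤ H ^ (1 / 2 : ℝ) := Real.rpow_le_rpow (by positivity) hH (by norm_num)
    calc X ^ δ < X ^ ((1 - δ) / 2 + (θ - 1)) := Real.rpow_lt_rpow_of_exponent_lt hX (by linarith)
      _ = X ^ ((1 - δ) / 2) * X ^ (θ - 1) := Real.rpow_add hX0 _ _
      _ ≤ _ := by gcongr
  tfae_have 1 → 2 := by
    intro h δ hδ
    filter_upwards [upP δ hδ h, eventually_ge_atTop 1] with X h1 h2 H hH1 hH2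
    have hX : 0 < X := by linarith
    exact h1 H ((Real.rpow_pos_of_pos hX _).trans_le hH1) hH1 hH2
  tfae_have 2 → 3 := by
    intro h δ hδ
    refine ⟨δ, hδ, ?_⟩
    apply Eventually.frequently
    filter_upwards [h δ hδ, eventually_ge_atTop 1] with X h1 h2
    have hX : 0 < X := by linarith
    refine ⟨X ^ (1 - δ), le_rfl, le_rfl, ?_⟩
    rw [h1 _ le_rfl (by
      conv_rhs => rw [← Real.rpow_one X]
      exact Real.rpow_le_rpow_of_exponent_le h2 (by linarith))]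
    positivity
  tfae_have 1 → 4 := by
    intro h δ hδ
    refine ⟨δ, hδ, ?_⟩
    apply Eventually.frequently
    filter_upwards [upE δ hδ h, eventually_ge_atTop 1] with X h1 h2
    have hX : 0 < X := by linarith
    refine ⟨X ^ (1 - δ), le_rfl, le_rfl, h1 _ (Real.rpow_pos_of_pos hX _) le_rfl ?_⟩
    conv_rhs => rw [← Real.rpow_one X]
    exact Real.rpow_le_rpow_of_exponent_le h2 (by linarith)
  tfae_have 3 → 1 := by
    intro h s hs h0
    obtain ⟨δ, θ, hδ, hθ, hδ1, hz, he⟩ := key s hs h0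
    obtain ⟨ε, hε, hfr⟩ := h δ hδ
    have hm1 := min_le_left ε (δ / 2)
    have hm2 := min_le_right ε (δ / 2)
    have hm3 : 0 < min ε (δ / 2) := lt_min hε (by linarith)
    have hlow := lowP θ (min ε (δ / 2)) hθ.le hm3 (by linarith) hz
    obtain ⟨X, ⟨H, hH1, hH2, hH3⟩, h3, h4⟩ := (hfr.and_eventually (hlow.and (eventually_gt_atTop 1))).exists
    have hX : 0 < X := by linarith
    have hH0 : 0 < H := (Real.rpow_pos_of_pos hX _).trans_le hH1
    have h5 : H ≤ X ^ (1 - min ε (δ / 2)) :=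
      hH2.trans (Real.rpow_le_rpow_of_exponent_le h4.le (by linarith))
    have h6 := h3 H hH0 h5 (X ^ δ) (by positivity) (hsq X H δ θ h4 hH1 hδ he).le
    have h7 : X ^ (-(2 * δ)) < H * X ^ (-1 - min ε (δ / 2)) := by
      calc X ^ (-(2 * δ)) < X ^ ((1 - δ) + (-1 - min ε (δ / 2))) :=
            Real.rpow_lt_rpow_of_exponent_lt h4 (by linarith)
        _ = X ^ (1 - δ) * X ^ (-1 - min ε (δ / 2)) := Real.rpow_add hX _ _
        _ ≤ _ := by gcongr
    linarith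
  tfae_have 4 → 1 := by
    intro h s hs h0
    obtain ⟨δ, θ, hδ, hθ, hδ1, hz, he⟩ := key s hs h0
    obtain ⟨ε, hε, hfr⟩ := h δ hδ
    have hm1 := min_le_left ε (1 / 2)
    have hm2 := min_le_right ε (1 / 2)
    have hm3 : 0 < min ε (1 / 2) := lt_min hε (by norm_num)
    have hlow := lowE θ (min ε (1 / 2)) hθ.le hm3 (by linarith) hz
    obtain ⟨X, ⟨H, hH1, hH2, hH3⟩, h3, h4⟩ := (hfr.and_eventually (hlow.and (eventually_gt_atTop 1))).exists
    have hX : 0 < X := by linarith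
    have hH0 : 0 < H := (Real.rpow_pos_of_pos hX _).trans_le hH1
    have h5 : H ≤ X ^ (1 - min ε (1 / 2)) :=
      hH2.trans (Real.rpow_le_rpow_of_exponent_le h4.le (by linarith))
    have h6 := h3 H hH0 h5
    have h7 := hsq X H δ θ h4 hH1 hδ he
    linarith
  tfae_finish

end Pool.Agent.Results.MP_4f18df_nt.TailsAndRH
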